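import Pool.Agent.H121R3.AuxGerm

/-!
# The Green-Griffiths-Lang property for varieties with multiple fibres over projective lines

Data: finitely many projective lines with homogeneous coordinates `x j 0 : x j 1` (`j : ι`), finite
sets `S j` of points `[a : 1]` of them, multiplicities `r j a ≥ 2`, and finite sets `B j j'` of
pairs `(a, b)`, which stand for crossings of the fibres `x j = a` and `x j' = b`.

Under one numerical condition there is a hypersurface `G = 0` in the product of the lines such that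
for every variety `X` over this product, whose fibres over `x j = a` have multiplicity at least
`r j a` outside the crossings in `B`, every entire curve in `X` lies over `G = 0` or over a point.
If `X` is finite over the product, this is the Green-Griffiths-Lang property of `X`. The theorem
`abelianCovers` below spells this out for abelian covers of the product.
-/

namespace Pool.Agent.Results.MP_8d161d_ag.MultipleFibres

open H121R3 Topology Filter

/-- Multihomogeneous polynomials in the coordinates `x j k`. -/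
def MultiHom {ι : Type} [Fintype ι] (G : MvPolynomial (ι × Fin 2) ℂ) : Prop :=
  ∃ D : ι → ℕ, ∀ (t : ι → ℂ) (x : ι → Fin 2 → ℂ),
    MvPolynomial.eval (fun v => t v.1 * x v.1 v.2) G =
      (∏ j, t j ^ D j) * MvPolynomial.eval (fun v => x v.1 v.2) G

/-- The germ at `z₀` of the map with coordinates `x` meets every fibre `x j = a`, `a ∈ S j`, with
multiplicity at least `r j a`, unless `z₀` is mapped to a crossing `(a, b) ∈ B j j'` of this fibre
with a fibre `x j' = b`, `b ∈ S j'`. -/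
def MeetsMultiply {ι : Type} (S : ι → Finset ℂ) (r : ι → ℂ → ℕ) (B : ι → ι → Finset (ℂ × ℂ))
    (x : ι → Fin 2 → ℂ → ℂ) (z₀ : ℂ) : Prop :=
  ∀ j, ∀ a ∈ S j, x j 0 z₀ = a * x j 1 z₀ →
    (∀ j', j' ≠ j → ∀ b ∈ S j', x j' 0 z₀ = b * x j' 1 z₀ → (a, b) ∉ B j j') →
    (r j a : ℕ∞) ≤ analyticOrderAt (fun z => x j 0 z - a * x j 1 z) z₀

/-- `V` is the set of homogeneous coordinates `(x, y)` of the points of a variety `X` over the
product of the lines (`y` stands for further coordinates, of any kind). The property says that every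
germ of a holomorphic curve in `X` which is not contained in a fibre over some `a ∈ S j` meets the
fibres multiply outside the crossings in `B`. -/
def HasMultipleFibres {ι ν : Type} (S : ι → Finset ℂ) (r : ι → ℂ → ℕ)
    (B : ι → ι → Finset (ℂ × ℂ)) (V : Set ((ι → Fin 2 → ℂ) × (ν → ℂ))) : Prop :=
  ∀ (x : ι → Fin 2 → ℂ → ℂ) (y : ν → ℂ → ℂ) (z₀ : ℂ),
    (∀ j k, AnalyticAt ℂ (x j k) z₀) → (∀ i, AnalyticAt ℂ (y i) z₀) →
    (∀ j, x j 0 z₀ ≠ 0 ∨ x j 1 z₀ ≠ 0) →
    (∀ᶠ z in 𝓝 z₀, ((fun j k => x j k z, fun i => y i z) : (ι → Fin 2 → ℂ) × (ν → ℂ)) ∈ V) →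
    (∀ j, ∀ a ∈ S j, ∀ᶠ z in 𝓝[≠] z₀, x j 0 z - a * x j 1 z ≠ 0) →
    MeetsMultiply S r B x z₀

/-- An entire curve in `X`, given by entire homogeneous coordinates. -/
structure EntireCurve {ι ν : Type} (V : Set ((ι → Fin 2 → ℂ) × (ν → ℂ)))
    (x : ι → Fin 2 → ℂ → ℂ) (y : ν → ℂ → ℂ) : Prop where
  hx : ∀ j k, Differentiable ℂ (x j k)
  hy : ∀ i, Differentiable ℂ (y i)
  ne : ∀ j z, x j 0 z ≠ 0 ∨ x j 1 z ≠ 0
  mem : ∀ z, ((fun j k => x j k z, fun i => y i z) : (ι → Fin 2 → ℂ) × (ν → ℂ)) ∈ V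

theorem result (ι : Type) [Fintype ι] [DecidableEq ι] (S : ι → Finset ℂ) (r : ι → ℂ → ℕ)
    (hr : ∀ j, ∀ a ∈ S j, 2 ≤ r j a) (B : ι → ι → Finset (ℂ × ℂ))
    (W : ℝ) (hW0 : 0 < W) (hW : ∀ j, ∀ a ∈ S j, 1 - 1 / (r j a : ℝ) ≤ W)
    (δ : ι → ι → ℝ) (hδ0 : ∀ j j', 0 ≤ δ j j')
    (hδ : ∀ j j', j ≠ j' → (B j j').card = 0 ∨ ((B j j').card : ℝ) < 2 * (δ j j' * δ j' j))
    (hS : ∀ j, 2 + 2 * (W * ∑ j' ∈ Finset.univ.erase j, δ j j') <
      ∑ a ∈ S j, (1 - 1 / (r j a : ℝ))) :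
    ∃ G : MvPolynomial (ι × Fin 2) ℂ, MultiHom G ∧
      (∃ x : ι → Fin 2 → ℂ, (∀ j, x j ≠ 0) ∧ MvPolynomial.eval (fun v => x v.1 v.2) G ≠ 0) ∧
      ∀ (ν : Type) (V : Set ((ι → Fin 2 → ℂ) × (ν → ℂ))), HasMultipleFibres S r B V →
        ∀ (x : ι → Fin 2 → ℂ → ℂ) (y : ν → ℂ → ℂ), EntireCurve V x y →
          (∀ z, MvPolynomial.eval (fun v => x v.1 v.2 z) G = 0) ∨
          (∀ j z, x j 1 0 * x j 0 z = x j 0 0 * x j 1 z) := by
  classical
  obtain ⟨F, D, hF0, hFh, hF⟩ := main_real S r hr B hW0 hW δ hδ0 hδ hS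
  have hSne : ∀ j, (S j).Nonempty := by
    intro j
    by_contra h0
    rw [Finset.not_nonempty_iff_eq_empty] at h0
    have h1 := hS j
    rw [h0, Finset.sum_empty] at h1
    have h2 : 0 ≤ W * ∑ j' ∈ Finset.univ.erase j, δ j j' :=
      mul_nonneg hW0.le (Finset.sum_nonneg fun _ _ => hδ0 _ _)
    linarith
  set P : MvPolynomial (ι × Fin 2) ℂ := ∏ j, ∏ a ∈ S j, LP j a with hP
  have hPh : MH (∑ j, ∑ _a ∈ S j, Pi.single j 1) P :=
    MH.prod _ fun j _ => MH.prod _ fun a _ => MH_LP j a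
  have hP0 : P ≠ 0 := Finset.prod_ne_zero_iff.2 fun j _ => Finset.prod_ne_zero_iff.2
    fun a _ => LP_ne j a
  have hPev : ∀ x : ι → Fin 2 → ℂ, ev P x = ∏ j, ∏ a ∈ S j, (x j 0 - a * x j 1) := by
    intro x
    rw [hP]
    unfold ev
    rw [map_prod]
    refine Finset.prod_congr rfl fun j _ => ?_
    rw [map_prod]
    exact Finset.prod_congr rfl fun a _ => ev_LP j a x
  have hne : ∀ x : ι → Fin 2 → ℂ, ev (F * P) x ≠ 0 →
      ev F x ≠ 0 ∧ ∀ j, ∀ a ∈ S j, x j 0 - a * x j 1 ≠ 0 := by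
    intro x hx
    have h1 : ev (F * P) x = ev F x * ev P x := by unfold ev; rw [map_mul]
    rw [h1, hPev] at hx
    exact ⟨left_ne_zero_of_mul hx, fun j a ha => Finset.prod_ne_zero_iff.1
      (Finset.prod_ne_zero_iff.1 (right_ne_zero_of_mul hx) j (Finset.mem_univ _)) a ha⟩
  refine ⟨F * P, ⟨_, hFh.mul hPh⟩, ?_, ?_⟩
  · have h1 : ∃ v : ι × Fin 2 → ℂ, MvPolynomial.eval v (F * P) ≠ 0 := by
      by_contra hcon
      push Not at hcon
      exact mul_ne_zero hF0 hP0 (MvPolynomial.funext fun v => by rw [hcon v, map_zero])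
    obtain ⟨v, hv⟩ := h1
    refine ⟨fun j k => v (j, k), fun j h0 => ?_, hv⟩
    obtain ⟨a, ha⟩ := hSne j
    apply (hne (fun j k => v (j, k)) hv).2 j a ha
    have h2 : v (j, 0) = 0 := congrFun h0 0
    have h3 : v (j, 1) = 0 := congrFun h0 1
    simp [h2, h3]
  · intro ν V hV x y hc
    by_cases hG : ∀ z, MvPolynomial.eval (fun v => x v.1 v.2 z) (F * P) = 0
    · exact Or.inl hG
    right
    push Not at hG
    obtain ⟨z₁, hz₁⟩ := hG
    obtain ⟨hz2, hz3⟩ := hne (fun j k => x j k z₁) hz₁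
    have hWW := hF x hc.hx hc.ne (fun z => hV x y z (fun j k => (hc.hx j k).analyticAt z)
      (fun i => (hc.hy i).analyticAt z) (fun j => hc.ne j z) (Eventually.of_forall hc.mem)
      fun j a ha => ent_ne ((hc.hx j 0).sub ((hc.hx j 1).const_mul a)) ⟨z₁, hz3 j a ha⟩ z)
      (fun j a ha => ⟨z₁, hz3 j a ha⟩) ⟨z₁, hz2⟩
    intro j z
    exact sub_eq_zero.1 (const_of_WW (hc.hx j 0) (hc.hx j 1) (hc.ne j) (hWW j) 0 z)

/-! ## Abelian covers -/

/-- Homogeneous coordinates of the points of the abelian cover with the equations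
`y i ^ n i = c i * ∏ j, ∏ a ∈ S j, (x j 0 - a * x j 1) ^ e i j a`. -/
def Cover {ι κ : Type} [Fintype ι] (S : ι → Finset ℂ) (n : κ → ℕ) (c : κ → ℂ)
    (e : κ → ι → ℂ → ℕ) : Set ((ι → Fin 2 → ℂ) × (κ → ℂ)) :=
  {v | (∀ j, v.1 j ≠ 0) ∧
    ∀ i, v.2 i ^ n i = c i * ∏ j, ∏ a ∈ S j, (v.1 j 0 - a * v.1 j 1) ^ e i j a}

/-- The coordinates `(x, y)` and `(x', y')` describe the same point of the abelian cover. -/
def Same {ι κ : Type} [Fintype ι] (S : ι → Finset ℂ) (n : κ → ℕ) (e : κ → ι → ℂ → ℕ)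
    (x : ι → Fin 2 → ℂ) (y : κ → ℂ) (x' : ι → Fin 2 → ℂ) (y' : κ → ℂ) : Prop :=
  ∃ t : ι → ℂ, (∀ j, t j ≠ 0) ∧ (∀ j k, x' j k = t j * x j k) ∧
    ∀ i, y' i = (∏ j, t j ^ ((∑ a ∈ S j, e i j a) / n i)) * y i

/-- The cover has ramification order at least `r j a` over the fibre `x j = a`, and its linked
crossings (those of two fibres over which one and the same equation is branched) belong to `B`. -/
structure IsCover {ι κ : Type} (S : ι → Finset ℂ) (r : ι → ℂ → ℕ) (B : ι → ι → Finset (ℂ × ℂ))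
    (n : κ → ℕ) (c : κ → ℂ) (e : κ → ι → ℂ → ℕ) : Prop where
  hn : ∀ i, n i ≠ 0
  hc : ∀ i, c i ≠ 0
  hram : ∀ j, ∀ a ∈ S j, ∀ m, 1 ≤ m → (∀ i, n i ∣ e i j a * m) → r j a ≤ m
  hlink : ∀ j j', j ≠ j' → ∀ a ∈ S j, ∀ b ∈ S j', ∀ i, ¬ n i ∣ e i j a → ¬ n i ∣ e i j' b →
    (a, b) ∈ B j j'

theorem cover_hasMultipleFibres {ι κ : Type} [Fintype ι] [DecidableEq ι] {S : ι → Finset ℂ}
    {r : ι → ℂ → ℕ} {B : ι → ι → Finset (ℂ × ℂ)} {n : κ → ℕ} {c : κ → ℂ} {e : κ → ι → ℂ → ℕ}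
    (h : IsCover S r B n c e) : HasMultipleFibres S r B (Cover S n c e) := by
  intro x y z₀ hx hy hx0 hmem hnz
  exact mult_germ S n h.hn c h.hc e r h.hram B h.hlink x y z₀ hx hx0 hy
    (fun i => by filter_upwards [hmem] with z hz using hz.2 i) hnz

/-- The Green-Griffiths-Lang property of the abelian covers; when `n i` divides all the sums
`∑ a ∈ S j, e i j a`, the cover is a projective variety, finite over the product of the lines. -/
theorem abelianCovers (ι : Type) [Fintype ι] [DecidableEq ι] (S : ι → Finset ℂ) (r : ι → ℂ → ℕ)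
    (hr : ∀ j, ∀ a ∈ S j, 2 ≤ r j a) (B : ι → ι → Finset (ℂ × ℂ))
    (W : ℝ) (hW0 : 0 < W) (hW : ∀ j, ∀ a ∈ S j, 1 - 1 / (r j a : ℝ) ≤ W)
    (δ : ι → ι → ℝ) (hδ0 : ∀ j j', 0 ≤ δ j j')
    (hδ : ∀ j j', j ≠ j' → (B j j').card = 0 ∨ ((B j j').card : ℝ) < 2 * (δ j j' * δ j' j))
    (hS : ∀ j, 2 + 2 * (W * ∑ j' ∈ Finset.univ.erase j, δ j j') <
      ∑ a ∈ S j, (1 - 1 / (r j a : ℝ))) :
    ∃ G : MvPolynomial (ι × Fin 2) ℂ, MultiHom G ∧
      ∀ (κ : Type) (n : κ → ℕ) (c : κ → ℂ) (e : κ → ι → ℂ → ℕ), IsCover S r B n c e →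
        (∀ i j, n i ∣ ∑ a ∈ S j, e i j a) →
        (∃ v ∈ Cover S n c e, MvPolynomial.eval (fun u => v.1 u.1 u.2) G ≠ 0) ∧
        ∀ (x : ι → Fin 2 → ℂ → ℂ) (y : κ → ℂ → ℂ), EntireCurve (Cover S n c e) x y →
          (∀ z, MvPolynomial.eval (fun v => x v.1 v.2 z) G = 0) ∨
          (∀ z, Same S n e (fun j k => x j k 0) (fun i => y i 0)
            (fun j k => x j k z) (fun i => y i z)) := by
  obtain ⟨G, hGh, ⟨x₀, hx₀, hGx₀⟩, hG⟩ := result ι S r hr B W hW0 hW δ hδ0 hδ hS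
  refine ⟨G, hGh, fun κ n c e hcov hdeg => ⟨?_, fun x y hc => ?_⟩⟩
  · have hroot : ∀ i, ∃ y : ℂ, y ^ n i =
        c i * ∏ j, ∏ a ∈ S j, (x₀ j 0 - a * x₀ j 1) ^ e i j a :=
      fun i => IsAlgClosed.exists_pow_nat_eq _ (Nat.pos_of_ne_zero (hcov.hn i))
    choose y hy using hroot
    exact ⟨(x₀, y), ⟨hx₀, hy⟩, hGx₀⟩
  rcases hG κ (Cover S n c e) (cover_hasMultipleFibres hcov) x y hc with h | hconst
  · exact Or.inl h
  right
  -- the scaling functions
  have hex : ∀ j, ∃ k : Fin 2, x j k 0 ≠ 0 := by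
    intro j
    rcases hc.ne j 0 with h | h
    · exact ⟨0, h⟩
    · exact ⟨1, h⟩
  choose k hk using hex
  set t : ι → ℂ → ℂ := fun j z => x j (k j) z / x j (k j) 0 with ht
  have htd : ∀ j, Differentiable ℂ (t j) := fun j => (hc.hx j (k j)).div_const _
  have ht0 : ∀ j, t j 0 = 1 := fun j => div_self (hk j)
  have htx : ∀ j l z, x j l z = t j z * x j l 0 := by
    intro j l z
    have h1 := hconst j z
    have h2 := hk j
    simp only [ht]
    rw [div_mul_eq_mul_div, eq_div_iff h2]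
    generalize k j = m
    fin_cases m <;> fin_cases l <;> simp only [Fin.zero_eta, Fin.mk_one, Fin.isValue]
    · linear_combination -h1
    · linear_combination h1
  have htn : ∀ j z, t j z ≠ 0 := by
    intro j z h0
    rcases hc.ne j z with h | h
    · exact h (by rw [htx j 0 z, h0, zero_mul])
    · exact h (by rw [htx j 1 z, h0, zero_mul])
  intro z
  refine ⟨fun j => t j z, fun j => htn j z, fun j l => htx j l z, fun i => ?_⟩
  -- the fibre coordinates
  set T : ℂ → ℂ := fun z => ∏ j, t j z ^ ((∑ a ∈ S j, e i j a) / n i) with hT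
  have hTd : Differentiable ℂ T := by
    simp only [hT]
    fun_prop
  have hTn : ∀ z, T z ≠ 0 := fun z => Finset.prod_ne_zero_iff.2 fun j _ => pow_ne_zero _ (htn j z)
  have hTp : ∀ z, T z ^ n i = ∏ j, ∏ a ∈ S j, t j z ^ e i j a := by
    intro z
    simp only [hT]
    rw [← Finset.prod_pow]
    refine Finset.prod_congr rfl fun j _ => ?_
    rw [← pow_mul, Nat.div_mul_cancel (hdeg i j), Finset.prod_pow_eq_pow_sum]
  have hT0 : T 0 = 1 := by
    simp only [hT]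
    exact Finset.prod_eq_one fun j _ => by rw [ht0, one_pow]
  have hpow : ∀ z, (y i z / T z) ^ n i = y i 0 ^ n i := by
    intro z
    have e1 : y i z ^ n i = c i * ∏ j, ∏ a ∈ S j, (x j 0 z - a * x j 1 z) ^ e i j a :=
      (hc.mem z).2 i
    have e2 : y i 0 ^ n i = c i * ∏ j, ∏ a ∈ S j, (x j 0 0 - a * x j 1 0) ^ e i j a :=
      (hc.mem 0).2 i
    rw [div_pow, div_eq_iff (pow_ne_zero _ (hTn z)), e1, e2, hTp, mul_assoc,
      ← Finset.prod_mul_distrib]
    congr 1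
    refine Finset.prod_congr rfl fun j _ => ?_
    rw [← Finset.prod_mul_distrib]
    refine Finset.prod_congr rfl fun a _ => ?_
    rw [← mul_pow, htx j 0 z, htx j 1 z]
    congr 1
    ring
  have hh : Differentiable ℂ (fun z => y i z / T z) := (hc.hy i).div hTd hTn
  have hfin := const_of_pow hh (hcov.hn i) hpow z
  simp only [hT0, div_one] at hfin
  rw [div_eq_iff (hTn z)] at hfin
  show y i z = T z * y i 0
  rw [hfin, mul_comm]

end Pool.Agent.Results.MP_8d161d_ag.MultipleFibres
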